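import Pool.Agent.H43.Bsv2

namespace Pool.Agent.Results.MP_498700_an.Cex

open Set MeasureTheory Filter Topology Function Pool.Agent.H43.Bsv
open scoped ENNReal ContDiff

/-- `η` lies in the Sobolev space `W^{1,1}(ℝ)`: integrable with an integrable weak derivative. -/
def W11 (η : ℝ → ℝ) : Prop :=
  Integrable η ∧ ∃ g : ℝ → ℝ, Integrable g ∧ ∀ φ : ℝ → ℝ, ContDiff ℝ ∞ φ → HasCompactSupport φ →
    ∫ x, η x * deriv φ x = -∫ x, g x * φ x

/-- The mollification `η_ε * v`. -/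
noncomputable def moll (η : ℝ → ℝ) (ε : ℝ) (v : ℝ → ℝ) (x : ℝ) : ℝ := ∫ z, η z * v (x - ε * z)

/-- The square of the Gagliardo seminorm of order `1/2`, exponent `2`, on the line. -/
noncomputable def gag (v : ℝ → ℝ) : ℝ≥0∞ :=
  ∫⁻ x, ∫⁻ y, ENNReal.ofReal (|v x - v y| ^ 2 / |x - y| ^ 2)

/-- The square of the Besov seminorm `B^{1/2}_{2,∞}` on the line. -/
noncomputable def besov (v : ℝ → ℝ) : ℝ≥0∞ :=
  ⨆ (h : ℝ) (_ : h ≠ 0), ∫⁻ x, ENNReal.ofReal (|v (x + h) - v x| ^ 2 / |h|)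

lemma gag_eq {v : ℝ → ℝ} (hv : Measurable v) : gag v = ∫⁻ h, D v h * wt h := by
  have hm : Measurable (uncurry fun x h : ℝ => ‖v (x + h) - v x‖ₑ ^ 2 * wt h) :=
    (((hv.comp (measurable_fst.add measurable_snd)).sub (hv.comp measurable_fst)).enorm.pow_const
      2).mul (wt_meas.comp measurable_snd)
  calc gag v = ∫⁻ x, ∫⁻ h, ‖v (x + h) - v x‖ₑ ^ 2 * wt h := by
        unfold gag
        congr 1; funext x
        rw [← lintegral_add_left_eq_self _ x]
        congr 1; funext h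
        rw [esq, wt, ← ENNReal.ofReal_mul (sq_nonneg _), sq_abs, sq_abs]
        congr 1; ring
    _ = ∫⁻ h, ∫⁻ x, ‖v (x + h) - v x‖ₑ ^ 2 * wt h := lintegral_lintegral_swap hm.aemeasurable
    _ = _ := by
        congr 1; funext h
        have : Measurable fun x => ‖v (x + h) - v x‖ₑ ^ 2 :=
          ((hv.comp (measurable_id.add_const h)).sub hv).enorm.pow_const 2
        exact lintegral_mul_const _ this

lemma moll_meas {η : ℝ → ℝ} (hη : Integrable η) (ε : ℝ) : Measurable (moll η ε u) := by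
  have e : moll η ε u = fun x => ∫ z, hη.1.mk η z * u (x - ε * z) := by
    funext x
    exact integral_congr_ae (hη.1.ae_eq_mk.mono fun z hz => by simp only [hz])
  rw [e]
  have : StronglyMeasurable (uncurry fun x z : ℝ => hη.1.mk η z * u (x - ε * z)) :=
    ((hη.1.measurable_mk.comp measurable_snd).mul
      (u_meas.comp (measurable_fst.sub (measurable_snd.const_mul ε)))).stronglyMeasurable
  exact this.integral_prod_right.measurable

lemma int_u {η : ℝ → ℝ} (hη : Integrable η) (ε x : ℝ) : Integrable fun z => η z * u (x - ε * z) :=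
  hη.mul_bdd (u_meas.comp (measurable_const.sub (measurable_id.const_mul ε))).aestronglyMeasurable
    (ae_of_all _ fun _ => u_bd _)

lemma D1 {η : ℝ → ℝ} (hη : Integrable η) (ε h : ℝ) :
    D (moll η ε u) h ≤ (∫⁻ z, ‖η z‖ₑ) ^ 2 * D u h := by
  have hw : Measurable fun x => u (x + h) - u x :=
    (u_meas.comp (measurable_id.add_const h)).sub u_meas
  refine le_trans (le_of_eq ?_) (young hη.1 hw ε)
  unfold D moll
  congr 1; funext x
  rw [← integral_sub (int_u hη _ _) (int_u hη _ _)]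
  congr 3; funext z
  rw [show x + h - ε * z = x - ε * z + h by ring]; ring

lemma D2 {η g : ℝ → ℝ} (hη : Integrable η) (hg : Integrable g)
    (hw : ∀ φ : ℝ → ℝ, ContDiff ℝ ∞ φ → HasCompactSupport φ →
      ∫ x, η x * deriv φ x = -∫ x, g x * φ x) {ε : ℝ} (hε : 0 < ε) (h : ℝ) :
    D (moll η ε u) h ≤ ENNReal.ofReal (h ^ 2 / ε ^ 2) * ((∫⁻ z, ‖g z‖ₑ) ^ 2 * 4) := by
  have hk := hη.comp_add_right (h / ε)
  refine le_trans (le_of_eq ?_) ((young (hk.sub hη).1 u_meas ε).trans ?_)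
  · unfold D moll
    congr 1; funext x
    rw [← integral_add_right_eq_self (fun z => η z * u (x + h - ε * z)) (h / ε)]
    have e : ∀ z, x + h - ε * (z + h / ε) = x - ε * z := fun z => by field_simp; ring
    simp only [e]
    rw [← integral_sub (int_u hk _ _) (int_u hη _ _)]
    congr 3; funext z
    simp only [Pi.sub_apply]; ring
  · have := diff_le hη hg hw (h / ε)
    calc _ ≤ (ENNReal.ofReal |h / ε| * ∫⁻ z, ‖g z‖ₑ) ^ 2 * 4 := by
          gcongr
          · exact this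
          · exact U_fin
      _ = _ := by
          rw [mul_pow, ← ENNReal.ofReal_pow (abs_nonneg _), sq_abs, div_pow, mul_assoc]

lemma gag_le {η g : ℝ → ℝ} (hη : Integrable η) (hg : Integrable g)
    (hw : ∀ φ : ℝ → ℝ, ContDiff ℝ ∞ φ → HasCompactSupport φ →
      ∫ x, η x * deriv φ x = -∫ x, g x * φ x) {ε : ℝ} (hε : 0 < ε) {n : ℕ}
    (hn : (1/2 : ℝ) ^ n ≤ ε ^ 2) :
    gag (moll η ε u) ≤ 2 * ((∫⁻ z, ‖g z‖ₑ) ^ 2 * 4) + (∫⁻ z, ‖η z‖ₑ) ^ 2 * (16 * n + 16) := by
  set G := (∫⁻ z, ‖g z‖ₑ) ^ 2 * 4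
  have hs : (univ : Set ℝ) ⊆ Icc (-ε ^ 2) (ε ^ 2) ∪ {h | ε ^ 2 < |h|} := fun h _ => by
    rcases le_or_gt |h| (ε ^ 2) with a | a
    · exact Or.inl (abs_le.1 a)
    · exact Or.inr a
  rw [gag_eq (moll_meas hη ε), ← setLIntegral_univ]
  refine (lintegral_mono_set hs).trans ((lintegral_union_le _ _ _).trans (add_le_add ?_ ?_))
  · calc _ ≤ ∫⁻ _ in Icc (-ε ^ 2) (ε ^ 2), ENNReal.ofReal (1 / ε ^ 2) * G := by
          refine lintegral_mono fun h => ?_
          calc _ ≤ ENNReal.ofReal (h ^ 2 / ε ^ 2) * G * wt h := by gcongr; exact D2 hη hg hw hε h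
            _ = ENNReal.ofReal (h ^ 2 / ε ^ 2 * (1 / h ^ 2)) * G := by
                rw [ENNReal.ofReal_mul (by positivity), wt]; ring
            _ ≤ _ := by
                gcongr
                by_cases h0 : h = 0
                · simp [h0]; positivity
                · exact le_of_eq (by field_simp)
      _ = _ := by
          rw [setLIntegral_const, Real.volume_Icc, mul_right_comm,
            ← ENNReal.ofReal_mul (by positivity),
            show 1 / ε ^ 2 * (ε ^ 2 - -ε ^ 2) = 2 by field_simp; ring]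
          simp
  · have hne : (∫⁻ z, ‖η z‖ₑ) ^ 2 ≠ ⊤ := ENNReal.pow_ne_top hη.2.ne
    calc _ ≤ ∫⁻ h in {h | ε ^ 2 < |h|}, (∫⁻ z, ‖η z‖ₑ) ^ 2 * (D u h * wt h) := by
          refine lintegral_mono fun h => ?_
          rw [← mul_assoc]; gcongr; exact D1 hη ε h
      _ ≤ _ := by
          rw [lintegral_const_mul' _ _ hne]; gcongr; exact tail hn

lemma pick {ε : ℝ} (hε : 0 < ε) (h1 : ε < Real.exp (-1)) :
    ∃ n : ℕ, (1/2 : ℝ) ^ n ≤ ε ^ 2 ∧ 1 ≤ |Real.log ε| ∧ (n : ℝ) ≤ 4 * |Real.log ε| := by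
  have hl : Real.log ε < -1 := by
    have := Real.log_lt_log hε h1
    rwa [Real.log_exp] at this
  rw [abs_of_neg (by linarith)]
  have hc := Nat.ceil_lt_add_one (show 0 ≤ -3 * Real.log ε by linarith)
  have hc2 := Nat.le_ceil (-3 * Real.log ε)
  refine ⟨⌈-3 * Real.log ε⌉₊, ?_, by linarith, by linarith⟩
  rw [← Real.log_le_log_iff (by positivity) (by positivity), Real.log_pow, Real.log_pow, one_div,
    Real.log_inv]
  have := Real.log_two_gt_d9
  push_cast
  nlinarith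

theorem result : ∃ v : ℝ → ℝ, MemLp v 2 volume ∧
    (∀ η : ℝ → ℝ, W11 η →
      limsup (fun ε : ℝ => gag (moll η ε v) / ENNReal.ofReal |Real.log ε|) (𝓝[>] 0) < ⊤) ∧
    besov v = ⊤ := by
  refine ⟨u, ⟨u_meas.aestronglyMeasurable, ?_⟩, ?_, ?_⟩
  · rw [eLpNorm_lt_top_iff_lintegral_rpow_enorm_lt_top (by norm_num) (by norm_num)]
    simp only [ENNReal.toReal_ofNat, ENNReal.rpow_two]
    exact U_fin.trans_lt (by simp)
  · rintro η ⟨hη, g, hg, hw⟩
    set G := (∫⁻ z, ‖g z‖ₑ) ^ 2 * 4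
    set H := (∫⁻ z, ‖η z‖ₑ) ^ 2
    have hG : G ≠ ⊤ := ENNReal.mul_ne_top (ENNReal.pow_ne_top hg.2.ne) (by simp)
    have hH : H ≠ ⊤ := ENNReal.pow_ne_top hη.2.ne
    refine lt_of_le_of_lt (limsup_le_of_le (a := 2 * G + H * 80) (by isBoundedDefault) ?_) ?_
    · filter_upwards [Ioo_mem_nhdsGT (Real.exp_pos (-1))] with ε hε
      obtain ⟨n, h1, h2, h3⟩ := pick hε.1 hε.2
      refine ENNReal.div_le_of_le_mul ((gag_le hη hg hw hε.1 h1).trans ?_)
      set L := ENNReal.ofReal |Real.log ε|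
      have hL : 1 ≤ L := ENNReal.one_le_ofReal.2 h2
      have hn : (n : ℝ≥0∞) ≤ 4 * L := by
        rw [← ENNReal.ofReal_natCast, ← ENNReal.ofReal_ofNat 4, ← ENNReal.ofReal_mul (by norm_num)]
        exact ENNReal.ofReal_le_ofReal h3
      calc 2 * G + H * (16 * n + 16) = 2 * G * 1 + H * (16 * n + 16 * 1) := by simp
        _ ≤ 2 * G * L + H * (16 * (4 * L) + 16 * L) := by gcongr
        _ = _ := by ring
    · exact ENNReal.add_lt_top.2 ⟨ENNReal.mul_lt_top (by simp) hG.lt_top,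
        ENNReal.mul_lt_top hH.lt_top (by simp)⟩
  · refine ENNReal.eq_top_of_forall_nnreal_le fun c => ?_
    obtain ⟨k, hk⟩ := exists_nat_ge (8 * (c : ℝ))
    have hd := δ_pos (k ^ 2)
    refine le_trans ?_ (le_iSup₂_of_le (δ (k ^ 2)) hd.ne' le_rfl)
    have e : ∀ x, ENNReal.ofReal (|u (x + δ (k ^ 2)) - u x| ^ 2 / |δ (k ^ 2)|) =
        ‖u (x + δ (k ^ 2)) - u x‖ₑ ^ 2 * ENNReal.ofReal (1 / δ (k ^ 2)) := fun x => by
      rw [esq, ← ENNReal.ofReal_mul (sq_nonneg _), sq_abs, abs_of_pos hd]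
      congr 1; ring
    simp only [e]
    rw [lintegral_mul_const' _ _ ENNReal.ofReal_ne_top]
    refine le_trans ?_ (mul_le_mul_left (big k) _)
    rw [← ENNReal.ofReal_mul (by positivity), ← ENNReal.ofReal_coe_nnreal]
    refine ENNReal.ofReal_le_ofReal ?_
    rw [show (k : ℝ) / 8 * δ (k ^ 2) * (1 / δ (k ^ 2)) = k / 8 by field_simp]
    linarith

end Pool.Agent.Results.MP_498700_an.Cex
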